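import Pool.Agent.K3h63.IQ.Stm2

/-!
# The eigenvalues of `∑ χ(g⁻¹) g` are positive rationals (brick EIG of helper63, written by helper99)
-/

set_option autoImplicit false

open scoped TensorProduct

namespace Pool.Agent.K3h99.IQ

open Pool.Agent.K3h63.IQ

universe w

section

variable {L V G : Type*} [Field L] [CharZero L] [AddCommGroup V] [Module L V]
  [Module.Finite L V] [Group G] [Fintype G]

/-- an invariant subspace has a nonzero equivariant map to it -/
theorem inter_pos (π : Representation L G V) (W : Submodule L V) (hW : W ≠ ⊥)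
    (ρW : Representation L G W) (hρ : ∀ g (w : W), (ρW g w : V) = π g w) :
    0 < Module.finrank L (Representation.IntertwiningMap π ρW) := by
  rw [← (Representation.invariantsEquivIntertwiningMap π ρW).finrank_eq]
  obtain ⟨P, hP⟩ := LinearMap.exists_leftInverse_of_injective W.subtype W.ker_subtype
  have hPw : ∀ w : W, P w = w := fun w => congrArg (fun f => f w) hP
  let e : V →ₗ[L] W := ∑ g, (Representation.linHom π ρW) g P
  have he : e ∈ (Representation.linHom π ρW).invariants := by
    intro h
    change (Representation.linHom π ρW) h (∑ g, (Representation.linHom π ρW) g P) =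
      ∑ g, (Representation.linHom π ρW) g P
    rw [map_sum]
    refine Fintype.sum_equiv (Equiv.mulLeft h) _ _ fun g => ?_
    rw [Equiv.coe_mulLeft, map_mul]
    rfl
  have hew : ∀ w : W, e w = (Fintype.card G : L) • w := by
    intro w
    change (∑ g, (Representation.linHom π ρW) g P) (w : V) = _
    rw [LinearMap.sum_apply]
    have h1 : ∀ g ∈ (Finset.univ : Finset G), ((Representation.linHom π ρW) g P) (w : V) = w := by
      intro g _
      rw [Representation.linHom_apply, LinearMap.comp_apply, LinearMap.comp_apply, ← hρ, hPw,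
        ← Module.End.mul_apply, ← map_mul, mul_inv_cancel, map_one, Module.End.one_apply]
    rw [Finset.sum_congr rfl h1, Finset.sum_const, Finset.card_univ, ← Nat.cast_smul_eq_nsmul L]
  have hcard : (Fintype.card G : L) ≠ 0 := Nat.cast_ne_zero.2 Fintype.card_ne_zero
  have hne : (⟨e, he⟩ : (Representation.linHom π ρW).invariants) ≠ 0 := by
    intro h0
    have h1 : e = 0 := congrArg Subtype.val h0
    obtain ⟨v, hv, hv0⟩ := W.ne_bot_iff.1 hW
    have h2 := hew ⟨v, hv⟩
    rw [h1, LinearMap.zero_apply] at h2
    have h3 := (smul_eq_zero.1 h2.symm).resolve_left hcard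
    exact hv0 (congrArg Subtype.val h3)
  have : Nontrivial (Representation.linHom π ρW).invariants := ⟨⟨_, _, hne⟩⟩
  exact Module.finrank_pos (R := L) (M := (Representation.linHom π ρW).invariants)

/-- the eigenvalues of `∑ χ(g⁻¹) g` -/
theorem eigen_pos (π : Representation L G V) (c : Module.End L V)
    (hc : c = ∑ g : G, LinearMap.trace L V (π g⁻¹) • π g) (μ : L) (hμ : c.HasEigenvalue μ) :
    ∃ r : ℚ, 0 < r ∧ (r : L) = μ := by
  have hcomm : ∀ h : G, c * π h = π h * c := by
    intro h
    rw [hc, Finset.sum_mul, Finset.mul_sum]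
    refine Fintype.sum_equiv ((Equiv.mulRight h).trans (Equiv.mulLeft h⁻¹)) _ _ fun g => ?_
    simp only [Equiv.trans_apply, Equiv.coe_mulRight, Equiv.coe_mulLeft]
    rw [smul_mul_assoc, mul_smul_comm, ← map_mul, ← map_mul, mul_inv_cancel_left]
    congr 1
    have h1 : (h⁻¹ * (g * h))⁻¹ = h⁻¹ * g⁻¹ * h := by group
    rw [h1, map_mul, LinearMap.trace_mul_comm, ← map_mul, mul_inv_cancel_left]
  obtain ⟨W, hWdef⟩ : ∃ W : Submodule L V, W = c.eigenspace μ := ⟨_, rfl⟩
  have hWne : W ≠ ⊥ := by rw [hWdef]; exact hμ
  have hmem : ∀ w ∈ W, c w = μ • w := by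
    intro w hw
    rw [hWdef] at hw
    exact Module.End.mem_eigenspace_iff.1 hw
  have hst : ∀ g : G, ∀ w ∈ W, π g w ∈ W := by
    intro g w hw
    rw [hWdef, Module.End.mem_eigenspace_iff, ← Module.End.mul_apply, hcomm, Module.End.mul_apply,
      hmem w hw, map_smul]
  let ρW : Representation L G W :=
    { toFun := fun g => (π g).restrict (hst g)
      map_one' := by
        ext w
        simp
      map_mul' := fun g h => by
        ext w
        simp }
  have hρ : ∀ g (w : W), (ρW g w : V) = π g w := fun g w => rfl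
  have hcard : (Nat.card G : L) ≠ 0 := by
    rw [Nat.card_eq_fintype_card]
    exact Nat.cast_ne_zero.2 Fintype.card_ne_zero
  have : Invertible (Nat.card G : L) := invertibleOfNonzero hcard
  have h1 := Representation.card_inv_mul_sum_char_mul_char_eq_finrank π ρW
  have h2 : ∑ g : G, ρW.character g * π.character g⁻¹ = μ * Module.finrank L W := by
    have h3 : ∑ g : G, π.character g⁻¹ • (ρW g : Module.End L W) = μ • (1 : Module.End L W) := by
      ext w
      have h4 := hmem w w.2
      rw [hc, LinearMap.sum_apply] at h4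
      rw [LinearMap.sum_apply, AddSubmonoidClass.coe_finsetSum]
      exact h4
    have h5 := congrArg (LinearMap.trace L W) h3
    rw [map_sum, map_smul, LinearMap.trace_one, smul_eq_mul] at h5
    rw [← h5]
    refine Finset.sum_congr rfl fun g _ => ?_
    rw [map_smul, smul_eq_mul, mul_comm]
    rfl
  rw [h2] at h1
  have hm := inter_pos π W hWne ρW hρ
  have hWpos : 0 < Module.finrank L W := by
    have : Nontrivial W := Submodule.nontrivial_iff_ne_bot.2 hWne
    exact Module.finrank_pos
  have hW0 : (Module.finrank L W : L) ≠ 0 := Nat.cast_ne_zero.2 hWpos.ne'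
  refine ⟨(Nat.card G : ℚ) * Module.finrank L (Representation.IntertwiningMap π ρW) /
    Module.finrank L W, ?_, ?_⟩
  · have h6 : (0 : ℚ) < Nat.card G := by
      rw [Nat.card_eq_fintype_card]
      exact_mod_cast Fintype.card_pos
    have h7 : (0 : ℚ) < Module.finrank L (Representation.IntertwiningMap π ρW) := by
      exact_mod_cast hm
    have h8 : (0 : ℚ) < Module.finrank L W := by exact_mod_cast hWpos
    positivity
  · push_cast
    rw [← h1]
    field_simp

end

theorem lift_multiset {L : Type*} [Field L] [CharZero L] (t : Multiset L)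
    (h : ∀ μ ∈ t, ∃ r : ℚ, 0 < r ∧ (r : L) = μ) :
    ∃ s : Multiset ℚ, (∀ r ∈ s, 0 < r) ∧ s.map (fun r : ℚ => (r : L)) = t := by
  induction t using Multiset.induction_on with
  | empty => exact ⟨0, by simp, by simp⟩
  | cons a t ih =>
    obtain ⟨s, hs, hst⟩ := ih fun μ hμ => h μ (Multiset.mem_cons_of_mem hμ)
    obtain ⟨r, hr, hra⟩ := h a (Multiset.mem_cons_self a t)
    refine ⟨r ::ₘ s, ?_, ?_⟩
    · intro x hx
      rcases Multiset.mem_cons.1 hx with h | h
      · rw [h]; exact hr
      · exact hs x h
    · rw [Multiset.map_cons, hst, hra]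

theorem t_EIG : S_EIG.{w} := by
  intro K V _ _ _ _ _ G _ _ π
  let L := AlgebraicClosure K
  have hL : CharZero L := charZero_of_injective_algebraMap (algebraMap K L).injective
  let πL : Representation L G (L ⊗[K] V) :=
    ((Module.End.baseChangeHom K L V : Module.End K V →* Module.End L (L ⊗[K] V))).comp π
  have hπL : ∀ g, πL g = (π g).baseChange L := fun g => rfl
  obtain ⟨c, hc⟩ : ∃ c : Module.End K V, c = ∑ g : G, LinearMap.trace K V (π g⁻¹) • π g :=
    ⟨_, rfl⟩
  rw [← hc]
  have hcL : c.baseChange L = ∑ g : G, LinearMap.trace L (L ⊗[K] V) (πL g⁻¹) • πL g := by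
    rw [hc]
    have h1 : (∑ g : G, LinearMap.trace K V (π g⁻¹) • π g).baseChange L =
        ∑ g : G, (LinearMap.trace K V (π g⁻¹) • π g).baseChange L :=
      map_sum (Module.End.baseChangeHom K L V) _ _
    rw [h1]
    refine Finset.sum_congr rfl fun g _ => ?_
    rw [hπL, hπL, LinearMap.trace_baseChange, LinearMap.baseChange_smul, algebraMap_smul]
  have hroot : ∀ μ ∈ (c.baseChange L).charpoly.roots, ∃ r : ℚ, 0 < r ∧ (r : L) = μ := by
    intro μ hμ
    refine eigen_pos πL (c.baseChange L) hcL μ ?_
    rw [Module.End.hasEigenvalue_iff_isRoot_charpoly]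
    exact Polynomial.isRoot_of_mem_roots hμ
  obtain ⟨s, hs, hst⟩ := lift_multiset _ hroot
  refine ⟨s, hs, ?_⟩
  have hprod : (c.baseChange L).charpoly =
      ((c.baseChange L).charpoly.roots.map fun a => Polynomial.X - Polynomial.C a).prod :=
    (IsAlgClosed.splits _).eq_prod_roots_of_monic (LinearMap.charpoly_monic _)
  have hcp : c.charpoly =
      (s.map fun r : ℚ => (Polynomial.X - Polynomial.C (r : K) : Polynomial K)).prod := by
    apply Polynomial.map_injective (algebraMap K L) (algebraMap K L).injective
    rw [← LinearMap.charpoly_baseChange, hprod, ← hst, Polynomial.map_multiset_prod,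
      Multiset.map_map, Multiset.map_map]
    congr 1
    refine Multiset.map_congr rfl fun r _ => ?_
    simp
  rw [← hcp]
  exact LinearMap.aeval_self_charpoly c

end Pool.Agent.K3h99.IQ
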